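import Pool.Agent.H30.VX.Targets

/-!
# Row MDU of the board vex_modules

A dense graph has a highly connected part which keeps the density.
-/

set_option autoImplicit false

namespace Pool.Agent.H13.VX

open Finset Pool.Agent.H48.CE Pool.Agent.H30.VR Pool.Agent.H30.VX

/-- The product of the remainder and its complement is at most `k * k`. -/
theorem rr_mul_le {k r : ℕ} (h : r < 2 * k) : r * (2 * k - r) ≤ k * k := by
  obtain ⟨s, hs⟩ : ∃ s, r + s = 2 * k := ⟨2 * k - r, by omega⟩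
  have h1 : 2 * k - r = s := by omega
  rw [h1]
  have h2 : ((r : ℤ) + s) = 2 * k := by exact_mod_cast hs
  have h3 : (r : ℤ) * s ≤ k * k := by nlinarith [sq_nonneg ((r : ℤ) - s)]
  exact_mod_cast h3

theorem pf_MDU (hMAD : T_MAD) (hFFB : T_FFB) : T_MDU := by
  intro ε₀ T hε₀
  obtain ⟨e, he0, he1, he2⟩ : ∃ e : ℝ, 0 < e ∧ 8 * e ≤ ε₀ ∧ 8 * e ≤ 1 := by
    refine ⟨min ε₀ 1 / 8, ?_, ?_, ?_⟩
    · have : 0 < min ε₀ 1 := lt_min hε₀ one_pos
      linarith
    · have := min_le_left ε₀ 1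
      linarith
    · have := min_le_right ε₀ 1
      linarith
  refine ⟨2 / e, ⌈(8 * T + 8) / ε₀⌉₊ + 2 * (T + 2) ^ 2 + 10, by positivity, ?_⟩
  intro k hk V _ G hn hG
  have hk1 : (8 * T + 8) / ε₀ ≤ (k : ℝ) := by
    refine le_trans (Nat.le_ceil _) ?_
    have : ⌈(8 * T + 8) / ε₀⌉₊ ≤ k := by omega
    exact_mod_cast this
  have hk1' : 8 * (T : ℝ) + 8 ≤ ε₀ * k := by
    rw [div_le_iff₀ hε₀] at hk1
    linarith
  have hk2 : 2 * ((T : ℝ) + 2) ^ 2 ≤ k := by
    have : 2 * (T + 2) ^ 2 ≤ k := by omega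
    exact_mod_cast this
  have hk3 : (10 : ℝ) ≤ k := by
    have : 10 ≤ k := by omega
    exact_mod_cast this
  have hk0 : (0 : ℝ) < k := by linarith
  have hT0 : (0 : ℝ) ≤ T := Nat.cast_nonneg T
  have hn' : 2 * (k : ℝ) ≤ e * Fintype.card V := by
    have h1 : 2 / e * k = 2 * k / e := by ring
    rw [h1, div_le_iff₀ he0] at hn
    linarith
  have hnpos : (0 : ℝ) < Fintype.card V := by
    by_contra hcon
    have h1 : e * (Fintype.card V : ℝ) ≤ 0 :=
      mul_nonpos_of_nonneg_of_nonpos he0.le (not_lt.mp hcon)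
    linarith
  have hnpos' : 0 < Fintype.card V := by exact_mod_cast hnpos
  -- the density of `G`
  have hd : 2 * ((1 - e) * k) * Fintype.card V ≤ ee G univ univ := by
    obtain ⟨h1, h2, -⟩ := hFFB k (Fintype.card V) (by omega) hnpos'
    have h3 := rr_mul_le h2
    have h4 : (2 * k + 1) * (Fintype.card V - 1) ≤ ee G univ univ + 8 * k + k * k := by
      calc (2 * k + 1) * (Fintype.card V - 1)
          = ff k (Fintype.card V) +
            rr k (Fintype.card V) * (2 * k - rr k (Fintype.card V)) := h1.symm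
        _ ≤ (ee G univ univ + 8 * k) + k * k := Nat.add_le_add hG h3
    have h5 : (2 * (k : ℝ) + 1) * ((Fintype.card V : ℝ) - 1) ≤
        ee G univ univ + 8 * k + k * k := by
      have h6 : ((Fintype.card V - 1 : ℕ) : ℝ) = (Fintype.card V : ℝ) - 1 := by
        rw [Nat.cast_sub hnpos', Nat.cast_one]
      rw [← h6]
      exact_mod_cast h4
    have h7 : (k : ℝ) * (2 * k) ≤ k * (e * Fintype.card V) :=
      mul_le_mul_of_nonneg_left hn' hk0.le
    have h8 : (1 : ℝ) ≤ Fintype.card V := by exact_mod_cast hnpos'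
    have h9 : 10 * (k : ℝ) ≤ k * k := mul_le_mul_of_nonneg_right hk3 hk0.le
    linarith
  obtain ⟨W, hW1, hW2, hW3⟩ := hMAD G T ((1 - e) * k) (by nlinarith) hnpos' hd
  have hc0 : 0 < (1 - e) * (k : ℝ) := by
    have : 0 < 1 - e := by linarith
    positivity
  have hwpos : (0 : ℝ) < W.card := lt_of_lt_of_le hc0 hW1
  have hwpos' : 0 < W.card := by exact_mod_cast hwpos
  refine ⟨W, ?_, ?_, hW3⟩
  · by_contra hcon
    rw [not_le] at hcon
    have h1 : (ee G W W : ℝ) ≤ W.card * W.card := by exact_mod_cast ee_le_mul W W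
    have hek : 8 * (e * (k : ℝ)) ≤ ε₀ * k := by
      have := mul_le_mul_of_nonneg_right he1 hk0.le
      linarith
    have h2 : 3 / 4 * (ε₀ * k) ≤ 2 * ((1 - e) * k) - W.card := by linarith
    have h3 : 3 / 4 * (ε₀ * k) * ((1 - e) * k) ≤
        (2 * ((1 - e) * k) - W.card) * W.card := by
      have h4 : 0 ≤ 3 / 4 * (ε₀ * (k : ℝ)) := by positivity
      exact mul_le_mul h2 hW1 hc0.le (h4.trans h2)
    have h5 : (2 * ((1 - e) * k) - W.card) * W.card ≤ 2 * T * ((1 - e) * k) := by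
      linarith
    have h6 : 3 / 4 * (ε₀ * k) ≤ 2 * T := le_of_mul_le_mul_right (h3.trans h5) hc0
    linarith
  · obtain ⟨h1, -, -⟩ := hFFB k W.card (by omega) hwpos'
    have h2 : ff k W.card ≤ (2 * k + 1) * (W.card - 1) := by
      rw [← h1]
      exact Nat.le_add_right _ _
    have h3 : ff k W.card ≤ (2 * k + 1) * W.card :=
      h2.trans (Nat.mul_le_mul_left _ (Nat.sub_le _ _))
    have h4 : (ff k W.card : ℝ) ≤ (2 * k + 1) * W.card := by exact_mod_cast h3
    have hek : 8 * (e * (k * (W.card : ℝ))) ≤ ε₀ * (k * W.card) := by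
      have := mul_le_mul_of_nonneg_right he1 (by positivity : 0 ≤ (k : ℝ) * W.card)
      linarith
    have h5 : 8 * (T : ℝ) * W.card + 8 * W.card ≤ ε₀ * k * W.card := by
      have := mul_le_mul_of_nonneg_right hk1' hwpos.le
      linarith
    have h6 : (k : ℝ) ≤ 2 * W.card := by
      have : e * (k : ℝ) ≤ 1 / 8 * k := by
        have := mul_le_mul_of_nonneg_right he2 hk0.le
        linarith
      linarith
    have h7 : (T : ℝ) * k ≤ T * (2 * W.card) := mul_le_mul_of_nonneg_left h6 hT0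
    have h8 : 0 ≤ e * k * T := by positivity
    have h9 : 0 ≤ ε₀ * k * (W.card : ℝ) := by positivity
    linarith

end Pool.Agent.H13.VX
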